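import Pool.Agent.H41.PRK.S5
import Pool.Agent.H79.HYP.GEO
import Pool.Agent.H45.HYP.BAD
import Pool.Agent.H82.T1.ALLK

/-!
# PRK, row BADY: few polynomials have a nontrivial class with a given pattern
-/

set_option autoImplicit false

namespace Pool.PRK

open Polynomial Matrix Pool.HYP Pool.TOW Pool.AVS Pool.T1 IsDedekindDomain

/-- **BADY.** -/
theorem bady (hQGE : QGEKStmt) (hCTT : CTTYStmt) (hCTM : CTMYStmt) (hCT1 : CT1YStmt)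
    (hCT2 : CT2KStmt) (hCTA : CTAYStmt) (hEXP : EXPKStmt) (hNUM : NUMKStmt) : BADYStmt := by
  classical
  intro R _ _ K _ _ _ O π H hU hLe hCe g hg hKe hFe hI T'
  obtain ⟨c1, hL⟩ := hLe
  obtain ⟨C2, hC⟩ := hCe
  obtain ⟨C3, hK⟩ := hKe
  obtain ⟨c4, hF⟩ := hFe
  obtain ⟨C, hCdef⟩ : ∃ C : ℕ, C = C3.toNat := ⟨_, rfl⟩
  obtain ⟨c5, hE⟩ := hEXP g C
  obtain ⟨c6, hN⟩ := hNUM g C
  have hQ3 : 3 ≤ qq O := hQGE R K O π H
  have hall : ∀ h : ℕ, (All R O π g h).Finite := fun h =>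
    (allk R K O π H (fun m => (hU m).1) g h).1
  obtain ⟨Q, hQ⟩ : ∃ Q, qq O = Q := ⟨_, rfl⟩
  rw [hQ] at hQ3
  have hQ0' : 0 < Q := by omega
  have hQ1' : 1 < Q := by omega
  obtain ⟨M', hM'⟩ : ∃ M', M' = ∏ P ∈ T', Nm P ^ (2 * g + 1) := ⟨_, rfl⟩
  obtain ⟨A0, hA0⟩ : ∃ A0, A0 = 2 * c1 ^ ((2 * g + 1) * (2 * g + 1)) * Q ^ c5 * c4 * M' := ⟨_, rfl⟩
  refine ⟨A0 * (c6 * 2 ^ g) + 1, C, fun D hD hT' hP ϖ hϖ y hy d E hTw => ?_⟩
  have hd0 : d ≠ 0 := hTw.1.1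
  obtain ⟨k, hkdef⟩ : ∃ k, k = D.T.card := ⟨_, rfl⟩
  obtain ⟨MT, hMT⟩ : ∃ MT, MT = ∏ P ∈ D.T, Nm P := ⟨_, rfl⟩
  have hMT0 : 0 < MT := by
    rw [hMT]
    exact Finset.prod_pos fun P hP' => lt_of_le_of_lt (Nat.zero_le _) (hP P hP').1
  have hMTN : ∏ P ∈ D.T, Nm P ^ (2 * g + 1) = MT ^ (2 * g + 1) := by
    rw [hMT, Finset.prod_pow]
  obtain ⟨NI, hNI⟩ : ∃ NI, NI = Nat.card (R ⧸ Ideal.span {d} * ∏ P ∈ D.T, P.asIdeal ^ 3) :=
    ⟨_, rfl⟩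
  obtain ⟨M, hM⟩ : ∃ M, M = C2 * NI := ⟨_, rfl⟩
  have hMQ : C2 * NI ≤ Q ^ M := by
    rw [← hM]
    exact (Nat.lt_pow_self hQ1').le
  obtain ⟨X, hX⟩ : ∃ X, X = (2 * g + 1) * (g + 1) := ⟨_, rfl⟩
  obtain ⟨A1, hA1⟩ : ∃ A1, A1 = c1 ^ ((2 * g + 1) * (2 * g + 1)) * Q ^ c5 * c4 *
    (MT ^ (2 * g + 1) * M') * Q ^ (E * X) := ⟨_, rfl⟩
  have hQ1 : (1 : ℝ) < (Q : ℝ) := by exact_mod_cast hQ1'
  have hQ0 : (0 : ℝ) < (Q : ℝ) := by linarith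
  obtain ⟨h₁, hdh, hgrow⟩ := BDZ.growth (Q : ℝ) hQ1 g (M + 4 * C) (2 ^ k * (A1 : ℝ) * c6)
  obtain ⟨h₂, hF2⟩ := hF D hD
  refine ⟨max h₁ h₂, fun h hh => ?_⟩
  have hh1 : h₁ ≤ h := (le_max_left _ _).trans hh
  have hh2 : h₂ ≤ h := (le_max_right _ _).trans hh
  have hFh := hF2 h hh2
  rw [hMTN, hT', ← hM', hQ, ← hX] at hFh
  obtain ⟨Φ, hΦ⟩ : ∃ Φ, Φ = (Fam π g D h).ncard := ⟨_, rfl⟩
  rw [← hΦ] at hFh
  have hFamfin : (Fam π g D h).Finite := (hall h).subset fun f hf => hf.1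
  have hMh : M ≤ h + E := by omega
  obtain ⟨m, hm⟩ : ∃ m, m = (h + E - M) / 2 := ⟨_, rfl⟩
  -- the bound by the pairs
  have hPF : ∀ e : Fin (2 * g + 1) → ℤ, Adm (C : ℤ) e →
      (PFY π g D h y d E e).ncard * Q ^ EUk e ≤
        c1 ^ ((2 * g + 1) * (2 * g + 1)) * (PPY π g D h y d E e).ncard := by
    intro e he
    have h3 := hCT1 R K O π H g D h y d E e hg hD hd0 (hI D h hD) he.1
      (hCTT R K O π hU g D h y d E e).1
    have h4 := (hCT2 R K O π H hU c1 hL (2 * g + 1) e he.1).2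
    rw [hQ] at h4
    calc (PFY π g D h y d E e).ncard * Q ^ EUk e ≤ (PFY π g D h y d E e).ncard *
          (c1 ^ ((2 * g + 1) * (2 * g + 1)) * (UUK R O π e).ncard) := Nat.mul_le_mul_left _ h4
      _ = c1 ^ ((2 * g + 1) * (2 * g + 1)) *
          ((PFY π g D h y d E e).ncard * (UUK R O π e).ncard) := by
          ring
      _ ≤ _ := Nat.mul_le_mul_left _ h3
  -- the main part
  have hmain : ∀ e : Fin (2 * g + 1) → ℤ, Adm (C : ℤ) e → Alw (h + E + 4 * C) (muK e) →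
      (M : ℤ) ≤ 2 * e ⟨0, by omega⟩ + h + E →
      2 ^ k * (PFY π g D h y d E e).ncard * Q ^ (∑ i, muK e i) ≤ A0 * Φ := by
    intro e he ha hm0
    have hi : ∀ i, (M : ℤ) ≤ 2 * e i + h + E := fun i => by
      have h3 : e ⟨0, by omega⟩ ≤ e i := he.1 (Fin.mk_le_of_le_val (Nat.zero_le _))
      omega
    have hcnt : ∀ (i j : Fin (2 * g + 1)) (r : R),
        {a ∈ Lm R O π (e i + e j + h + E) |
          a - r ∈ Ideal.span {d} * ∏ P ∈ D.T, P.asIdeal ^ 3}.ncard *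
          Nat.card (R ⧸ Ideal.span {d} * ∏ P ∈ D.T, P.asIdeal ^ 3) ≤
          qq O ^ (e i + e j + h + E + 1).toNat := by
      intro i j r
      have h5 := hi i
      have h6 := hi j
      obtain ⟨n, hn⟩ := Int.eq_ofNat_of_zero_le (show 0 ≤ e i + e j + h + E by omega)
      have hMn : M ≤ n := by omega
      rw [hn]
      have hne : (Ideal.span {d} * ∏ P ∈ D.T, P.asIdeal ^ 3) ≠ ⊥ := by
        rw [← Ideal.zero_eq_bot]
        refine mul_ne_zero ?_ ?_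
        · rw [Ideal.zero_eq_bot, Ne, Ideal.span_singleton_eq_bot]
          exact hd0
        · rw [Finset.prod_ne_zero_iff]
          intro P _
          refine pow_ne_zero _ ?_
          rw [Ideal.zero_eq_bot]
          exact P.ne_bot
      have h7 := hC (Ideal.span {d} * ∏ P ∈ D.T, P.asIdeal ^ 3) n hne (by
        rw [← hNI, hQ]
        exact hMQ.trans (Nat.pow_le_pow_right hQ0' hMn)) r
      rw [h7]
      exact (hU _).2
    have h3 := hCTM R K O π H hU g D h y d E e hg hD (fun P hP' => (hP P hP').2) hTw hcnt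
    rw [← hMT, ← hkdef, hQ, ← hX] at h3
    have h4 := (hE (h + E) e he ha).2 fun i => by
      have := hi i
      push_cast
      omega
    rw [← hX] at h4
    have h5 := hPF e he
    have hpos : 0 < Q ^ EUk e * MT ^ (2 * g + 1) * Q ^ (E * X) := by positivity
    refine Nat.le_of_mul_le_mul_right ?_ hpos
    obtain ⟨P1, hP1⟩ : ∃ P1, P1 = (PFY π g D h y d E e).ncard := ⟨_, rfl⟩
    obtain ⟨P2, hP2⟩ : ∃ P2, P2 = (PPY π g D h y d E e).ncard := ⟨_, rfl⟩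
    obtain ⟨c7, hc7⟩ : ∃ c7, c7 = c1 ^ ((2 * g + 1) * (2 * g + 1)) := ⟨_, rfl⟩
    rw [← hP1, ← hP2, ← hc7] at h5
    rw [← hP2] at h3
    rw [← hP1, hA0, ← hc7]
    calc 2 ^ k * P1 * Q ^ (∑ i, muK e i) * (Q ^ EUk e * MT ^ (2 * g + 1) * Q ^ (E * X))
        = 2 ^ k * Q ^ (∑ i, muK e i) * MT ^ (2 * g + 1) * Q ^ (E * X) * (P1 * Q ^ EUk e) := by
          ring
      _ ≤ 2 ^ k * Q ^ (∑ i, muK e i) * MT ^ (2 * g + 1) * Q ^ (E * X) * (c7 * P2) :=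
          Nat.mul_le_mul_left _ h5
      _ = Q ^ (∑ i, muK e i) * c7 * (2 ^ k * P2 * MT ^ (2 * g + 1) * Q ^ (E * X)) := by ring
      _ ≤ Q ^ (∑ i, muK e i) * c7 * (2 * Q ^ (EGk e + ESk e (h + E))) :=
          Nat.mul_le_mul_left _ h3
      _ = 2 * c7 * Q ^ (EGk e + ESk e (h + E) + ∑ i, muK e i) := by ring
      _ ≤ 2 * c7 * Q ^ (EUk e + (h + E) * X + c5) :=
          Nat.mul_le_mul_left _ (Nat.pow_le_pow_right hQ0' h4)
      _ = 2 * c7 * Q ^ EUk e * Q ^ c5 * Q ^ (E * X) * Q ^ (h * X) := by ring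
      _ ≤ 2 * c7 * Q ^ EUk e * Q ^ c5 * Q ^ (E * X) * (c4 * (Φ * MT ^ (2 * g + 1) * M')) :=
          Nat.mul_le_mul_left _ hFh
      _ = 2 * c7 * Q ^ c5 * c4 * M' * Φ * (Q ^ EUk e * MT ^ (2 * g + 1) * Q ^ (E * X)) := by
          ring
  -- the other part
  have hother : ∀ e : Fin (2 * g + 1) → ℤ, Adm (C : ℤ) e → Alw (h + E + 4 * C) (muK e) →
      ¬ (M : ℤ) ≤ 2 * e ⟨0, by omega⟩ + h + E →
      (PFY π g D h y d E e).ncard * Q ^ m ≤ A1 * Φ := by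
    intro e he ha hm0
    have h4 := (hE (h + E) e he ha).1 ⟨0, hg⟩ m (by
      show m ≤ (-e ⟨0, _⟩).toNat
      omega) (by omega)
    rw [← hX] at h4
    have h5 := hPF e he
    have h3 := (hCTT R K O π hU g D h y d E e).2
    rw [hQ] at h3
    have hpos : 0 < Q ^ EUk e := by positivity
    refine Nat.le_of_mul_le_mul_right ?_ hpos
    obtain ⟨P1, hP1⟩ : ∃ P1, P1 = (PFY π g D h y d E e).ncard := ⟨_, rfl⟩
    obtain ⟨P2, hP2⟩ : ∃ P2, P2 = (PPY π g D h y d E e).ncard := ⟨_, rfl⟩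
    obtain ⟨c7, hc7⟩ : ∃ c7, c7 = c1 ^ ((2 * g + 1) * (2 * g + 1)) := ⟨_, rfl⟩
    rw [← hP1, ← hP2, ← hc7] at h5
    rw [← hP2] at h3
    rw [← hP1, hA1, ← hc7]
    calc P1 * Q ^ m * Q ^ EUk e = Q ^ m * (P1 * Q ^ EUk e) := by ring
      _ ≤ Q ^ m * (c7 * P2) := Nat.mul_le_mul_left _ h5
      _ = Q ^ m * c7 * P2 := by ring
      _ ≤ Q ^ m * c7 * Q ^ (EGk e + ESk e (h + E)) := Nat.mul_le_mul_left _ h3
      _ = c7 * Q ^ (EGk e + ESk e (h + E) + m) := by ring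
      _ ≤ c7 * Q ^ (EUk e + (h + E) * X + c5) :=
          Nat.mul_le_mul_left _ (Nat.pow_le_pow_right hQ0' h4)
      _ = c7 * Q ^ EUk e * Q ^ c5 * Q ^ (E * X) * Q ^ (h * X) := by ring
      _ ≤ c7 * Q ^ EUk e * Q ^ c5 * Q ^ (E * X) * (c4 * (Φ * MT ^ (2 * g + 1) * M')) :=
          Nat.mul_le_mul_left _ hFh
      _ = c7 * Q ^ c5 * c4 * (MT ^ (2 * g + 1) * M') * Q ^ (E * X) * Φ * Q ^ EUk e := by ring
  -- both parts
  have hboth : ∀ e : Fin (2 * g + 1) → ℤ, Adm (C : ℤ) e → Alw (h + E + 4 * C) (muK e) →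
      ((PFY π g D h y d E e).ncard : ℝ) ≤
        ((A0 : ℝ) / 2 ^ k * Φ) * ((Q : ℝ) ^ (∑ i, muK e i))⁻¹ + (A1 : ℝ) * Φ / (Q : ℝ) ^ m := by
    intro e he ha
    have hp1 : 0 ≤ ((A0 : ℝ) / 2 ^ k * Φ) * ((Q : ℝ) ^ (∑ i, muK e i))⁻¹ := by positivity
    have hp2 : 0 ≤ (A1 : ℝ) * Φ / (Q : ℝ) ^ m := by positivity
    by_cases hm0 : (M : ℤ) ≤ 2 * e ⟨0, by omega⟩ + h + E
    · have h3 := hmain e he ha hm0
      have h3' : (2 : ℝ) ^ k * ((PFY π g D h y d E e).ncard : ℝ) * (Q : ℝ) ^ (∑ i, muK e i) ≤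
        (A0 : ℝ) * Φ := by exact_mod_cast h3
      have hB : (0 : ℝ) < (2 : ℝ) ^ k := by positivity
      have hC' : (0 : ℝ) < (Q : ℝ) ^ (∑ i, muK e i) := by positivity
      have h4 : ((PFY π g D h y d E e).ncard : ℝ) ≤
          ((A0 : ℝ) / 2 ^ k * Φ) * ((Q : ℝ) ^ (∑ i, muK e i))⁻¹ := by
        rw [← div_eq_mul_inv, le_div_iff₀ hC', div_mul_eq_mul_div, le_div_iff₀ hB]
        linarith
      linarith
    · have h3 := hother e he ha hm0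
      have h3' : ((PFY π g D h y d E e).ncard : ℝ) * (Q : ℝ) ^ m ≤ (A1 : ℝ) * Φ := by
        exact_mod_cast h3
      have hB : (0 : ℝ) < (Q : ℝ) ^ m := by positivity
      have h4 : ((PFY π g D h y d E e).ncard : ℝ) ≤ (A1 : ℝ) * Φ / (Q : ℝ) ^ m := by
        rw [le_div_iff₀ hB]
        exact h3'
      linarith
  -- the index sets
  obtain ⟨A, hA⟩ : ∃ A : Finset (Fin g → ℕ), A =
    (Fintype.piFinset (fun _ : Fin g => Finset.range (g * (h + E + 4 * C) + 1))).filter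
      (fun μ => Alw (h + E + 4 * C) μ) := ⟨_, rfl⟩
  have hAcard : (A.card : ℝ) ≤ ((g * (h + E + 4 * C) + 1 : ℕ) : ℝ) ^ g := by
    have h3 : A.card ≤
        (Fintype.piFinset (fun _ : Fin g => Finset.range (g * (h + E + 4 * C) + 1))).card := by
      rw [hA]
      exact Finset.card_filter_le _ _
    rw [Fintype.card_piFinset] at h3
    simp only [Finset.card_range, Finset.prod_const, Finset.card_univ, Fintype.card_fin] at h3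
    exact_mod_cast h3
  have hAmem : ∀ μ : Fin g → ℕ, Alw (h + E + 4 * C) μ → μ ∈ A := by
    intro μ hμ
    rw [hA]
    refine Finset.mem_filter.2 ⟨?_, hμ⟩
    rw [Fintype.mem_piFinset]
    intro i
    rw [Finset.mem_range]
    have := BDZ.alw_le hμ i
    omega
  have hAalw : ∀ μ ∈ A, Alw (h + E + 4 * C) μ := fun μ hμ => by
    rw [hA] at hμ
    exact (Finset.mem_filter.1 hμ).2
  obtain ⟨B, hB⟩ : ∃ B : (Fin g → ℕ) → Finset (Fin (2 * g + 1) → ℤ),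
      (∀ μ e, e ∈ B μ ↔ Adm (C : ℤ) e ∧ muK e = μ) ∧ ∀ μ, (B μ).card ≤ c6 := by
    refine ⟨fun μ => (hN μ).1.toFinset, fun μ e => ?_, fun μ => ?_⟩
    · rw [Set.Finite.mem_toFinset]
      rfl
    · have h3 := (hN μ).2
      rwa [Set.ncard_eq_toFinset_card _ (hN μ).1] at h3
  have hPFfin : ∀ e, (PFY π g D h y d E e).Finite := fun e => hFamfin.subset fun f hf => hf.1
  have hbad : {f ∈ Fam π g D h | Pat K D ϖ y f} ⊆ ⋃ μ ∈ A, ⋃ e ∈ B μ, PFY π g D h y d E e := by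
    rintro f ⟨hf, hfb⟩
    obtain ⟨e, G, S, he, hPM⟩ := hK D h hD (fun P hP' => by
      have h3 := (hP P hP').1
      have h4 : (Nat.card (R ⧸ P.asIdeal) : ℤ) = (Nm P : ℤ) := rfl
      rw [h4]
      omega) ϖ hϖ y hy d E hTw f hf hfb
    have he' : Adm (C : ℤ) e := ⟨he.1, he.2.1, he.2.2.trans (by omega)⟩
    have hmem : f ∈ PFY π g D h y d E e := ⟨hf, G, S, hPM⟩
    have halw := hCTA R K O π H g D h C y d E e hg hd0 (hI D h hD) he' ⟨f, hmem⟩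
    exact Set.mem_iUnion₂.2 ⟨muK e, hAmem _ halw,
      Set.mem_iUnion₂.2 ⟨e, (hB.1 _ _).2 ⟨he', rfl⟩, hmem⟩⟩
  have hcard : ({f ∈ Fam π g D h | Pat K D ϖ y f}.ncard : ℝ) ≤
      ∑ μ ∈ A, ∑ e ∈ B μ, ((PFY π g D h y d E e).ncard : ℝ) := by
    have h3 : {f ∈ Fam π g D h | Pat K D ϖ y f}.ncard ≤
        ∑ μ ∈ A, ∑ e ∈ B μ, (PFY π g D h y d E e).ncard := by
      have hUfin : (⋃ μ ∈ A, ⋃ e ∈ B μ, PFY π g D h y d E e).Finite :=
        A.finite_toSet.biUnion fun μ _ => (B μ).finite_toSet.biUnion fun e _ => hPFfin e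
      refine (Set.ncard_le_ncard hbad hUfin).trans ?_
      refine (Finset.set_ncard_biUnion_le A _).trans ?_
      exact Finset.sum_le_sum fun μ _ => Finset.set_ncard_biUnion_le (B μ) _
    exact_mod_cast h3
  have hg2 := hgrow (h + E + 4 * C) (by omega)
  have hm2 : (h + E + 4 * C - (M + 4 * C)) / 2 = m := by omega
  rw [hm2] at hg2
  have hΦ0 : (0 : ℝ) ≤ (Φ : ℝ) := by positivity
  have hBk : (0 : ℝ) < (2 : ℝ) ^ k := by positivity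
  have hsum : ∑ μ ∈ A, ∑ e ∈ B μ, ((PFY π g D h y d E e).ncard : ℝ) ≤
      (A0 * (c6 * 2 ^ g)) * Φ / 2 ^ k + Φ / 2 ^ k := by
    have h3 : ∀ μ ∈ A, ∑ e ∈ B μ, ((PFY π g D h y d E e).ncard : ℝ) ≤
        (c6 : ℝ) * (((A0 : ℝ) / 2 ^ k * Φ) * ((Q : ℝ) ^ (∑ i, μ i))⁻¹ +
          (A1 : ℝ) * Φ / (Q : ℝ) ^ m) := by
      intro μ hμ
      have hp : 0 ≤ ((A0 : ℝ) / 2 ^ k * Φ) * ((Q : ℝ) ^ (∑ i, μ i))⁻¹ +
          (A1 : ℝ) * Φ / (Q : ℝ) ^ m := by positivity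
      calc ∑ e ∈ B μ, ((PFY π g D h y d E e).ncard : ℝ)
          ≤ ∑ e ∈ B μ, (((A0 : ℝ) / 2 ^ k * Φ) * ((Q : ℝ) ^ (∑ i, μ i))⁻¹ +
            (A1 : ℝ) * Φ / (Q : ℝ) ^ m) := by
            refine Finset.sum_le_sum fun e he => ?_
            obtain ⟨h4, h5⟩ := (hB.1 μ e).1 he
            have h6 := hboth e h4 (h5 ▸ hAalw μ hμ)
            rw [h5] at h6
            exact h6
        _ = ((B μ).card : ℝ) * (((A0 : ℝ) / 2 ^ k * Φ) * ((Q : ℝ) ^ (∑ i, μ i))⁻¹ +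
            (A1 : ℝ) * Φ / (Q : ℝ) ^ m) := by rw [Finset.sum_const, nsmul_eq_mul]
        _ ≤ _ := mul_le_mul_of_nonneg_right (by exact_mod_cast hB.2 μ) hp
    refine (Finset.sum_le_sum h3).trans ?_
    have h4 : ∑ μ ∈ A, (c6 : ℝ) * (((A0 : ℝ) / 2 ^ k * Φ) * ((Q : ℝ) ^ (∑ i, μ i))⁻¹ +
          (A1 : ℝ) * Φ / (Q : ℝ) ^ m) =
        (c6 : ℝ) * ((A0 : ℝ) / 2 ^ k * Φ) * (∑ μ ∈ A, ((Q : ℝ) ^ (∑ i, μ i))⁻¹) +
          (A.card : ℝ) * ((c6 : ℝ) * ((A1 : ℝ) * Φ / (Q : ℝ) ^ m)) := by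
      have h5 : (A.card : ℝ) * ((c6 : ℝ) * ((A1 : ℝ) * Φ / (Q : ℝ) ^ m)) =
          ∑ μ ∈ A, ((c6 : ℝ) * ((A1 : ℝ) * Φ / (Q : ℝ) ^ m)) := by
        rw [Finset.sum_const, nsmul_eq_mul]
      rw [Finset.mul_sum, h5, ← Finset.sum_add_distrib]
      refine Finset.sum_congr rfl fun μ _ => ?_
      ring
    rw [h4]
    apply add_le_add
    · have h5 := geo g Q hQ3 A
      have hp : 0 ≤ (c6 : ℝ) * ((A0 : ℝ) / 2 ^ k * Φ) := by positivity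
      refine (mul_le_mul_of_nonneg_left h5 hp).trans (le_of_eq ?_)
      ring
    · have hB' : (0 : ℝ) < (Q : ℝ) ^ m := by positivity
      have hp : 0 ≤ (c6 : ℝ) * ((A1 : ℝ) * Φ / (Q : ℝ) ^ m) := by positivity
      refine (mul_le_mul_of_nonneg_right hAcard hp).trans ?_
      rw [le_div_iff₀ hBk]
      have h6 : ((g * (h + E + 4 * C) + 1 : ℕ) : ℝ) ^ g * (c6 * A1) * 2 ^ k / (Q : ℝ) ^ m ≤ 1 := by
        rw [div_le_one₀ hB']
        linarith [hg2]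
      calc ((g * (h + E + 4 * C) + 1 : ℕ) : ℝ) ^ g * ((c6 : ℝ) * ((A1 : ℝ) * Φ / (Q : ℝ) ^ m)) *
            2 ^ k
          = Φ * (((g * (h + E + 4 * C) + 1 : ℕ) : ℝ) ^ g * (c6 * A1) * 2 ^ k /
            (Q : ℝ) ^ m) := by ring
        _ ≤ Φ * 1 := mul_le_mul_of_nonneg_left h6 hΦ0
        _ = Φ := by ring
  have hfinal : (2 : ℝ) ^ k * ({f ∈ Fam π g D h | Pat K D ϖ y f}.ncard : ℝ) ≤
      (A0 * (c6 * 2 ^ g) + 1) * Φ := by
    have h3 := hcard.trans hsum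
    have h4 := mul_le_mul_of_nonneg_left h3 hBk.le
    refine h4.trans (le_of_eq ?_)
    field_simp
  rw [← hΦ, ← hkdef]
  exact_mod_cast hfinal

end Pool.PRK
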