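import Pool.Agent.H79.PRK.S1
import Pool.Agent.H28.T1.VQB

/-!
# PRK, row LRSK: from the basis of the local lattice to other vectors
-/

set_option autoImplicit false
set_option linter.overlappingInstances false
set_option linter.unusedSectionVars false

namespace Pool.PRK

open Polynomial Matrix Pool.HYP Pool.TOW Pool.AVS Pool.T1 IsDedekindDomain

namespace LRSK3

section Loc

variable {R : Type} [CommRing R] [IsDedekindDomain R] {K : Type} [Field K] [Algebra R K]
  [IsFractionRing R K] {P : HeightOneSpectrum R} {d : R}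

theorem rp_neg {x : K} (hx : x ∈ RP K P) : -x ∈ RP K P := by
  have h : (-1 : K) ∈ RP K P := by
    have := rp_alg (K := K) (P := P) (-1 : R)
    rwa [map_neg, map_one] at this
  have := rp_mul h hx
  rwa [neg_one_mul] at this

/-- Approximation modulo the cube of `P`. -/
theorem near3 (hd : d ∈ P.asIdeal) (hd2 : d ∉ P.asIdeal ^ 2) {x : K} (hx : x ∈ RP K P) :
    ∃ a : R, (x - algebraMap R K a) / algebraMap R K d ^ 3 ∈ RP K P := by
  have hd0 : algebraMap R K d ≠ 0 := alg_ne fun h => hd2 (by rw [h]; exact zero_mem _)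
  obtain ⟨-, -, h3⟩ := vqb R K P d hd hd2
  obtain ⟨a, ha⟩ := h3 x hx
  obtain ⟨b, hb⟩ := h3 _ ha
  obtain ⟨c, hc⟩ := h3 _ hb
  refine ⟨a + d * b + d ^ 2 * c, ?_⟩
  have e : (x - algebraMap R K (a + d * b + d ^ 2 * c)) / algebraMap R K d ^ 3 =
      (((x - algebraMap R K a) / algebraMap R K d - algebraMap R K b) / algebraMap R K d -
        algebraMap R K c) / algebraMap R K d := by
    rw [map_add, map_add, map_mul, map_mul, map_pow]
    field_simp
    ring
  rw [e]
  exact hc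

/-- An element of `R` divisible by `d³` at `P` is in the cube of `P`. -/
theorem mem3 (hd : d ∈ P.asIdeal) (hd2 : d ∉ P.asIdeal ^ 2) {a : R}
    (ha : algebraMap R K a / algebraMap R K d ^ 3 ∈ RP K P) : a ∈ P.asIdeal ^ 3 := by
  have hd0 : algebraMap R K d ≠ 0 := alg_ne fun h => hd2 (by rw [h]; exact zero_mem _)
  obtain ⟨m, hm, r, hr⟩ := ha
  have h1 : m * a = d ^ 3 * r := by
    apply IsFractionRing.injective R K
    rw [map_mul, map_mul, map_pow, ← hr]
    field_simp
  have h2 : m * a ∈ P.asIdeal ^ 3 := by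
    rw [h1]
    exact Ideal.mul_mem_right _ _ (Ideal.pow_mem_pow hd 3)
  have hPp : P.asIdeal.IsPrime := P.isPrime
  rcases Ideal.IsPrime.mul_mem_pow P.asIdeal h2 with h | h
  · exact absurd h hm
  · exact h

/-- Approximation of a matrix. -/
theorem nearM (hd : d ∈ P.asIdeal) (hd2 : d ∉ P.asIdeal ^ 2) {n : ℕ}
    {x : Matrix (Fin n) (Fin n) K} (hx : MIn (RP K P) x) :
    ∃ (a : Matrix (Fin n) (Fin n) R) (z : Matrix (Fin n) (Fin n) K), MIn (RP K P) z ∧
      x = a.map (algebraMap R K) + algebraMap R K d ^ 3 • z := by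
  have hd0 : algebraMap R K d ≠ 0 := alg_ne fun h => hd2 (by rw [h]; exact zero_mem _)
  choose a ha using fun i j => near3 hd hd2 (hx i j)
  refine ⟨Matrix.of a, Matrix.of fun i j => (x i j - algebraMap R K (a i j)) /
    algebraMap R K d ^ 3, fun i j => by rw [Matrix.of_apply]; exact ha i j, ?_⟩
  ext i j
  rw [Matrix.add_apply, Matrix.smul_apply, Matrix.map_apply, Matrix.of_apply, Matrix.of_apply,
    smul_eq_mul]
  field_simp
  ring

theorem min_add {n : ℕ} {A B : Matrix (Fin n) (Fin n) K} (hA : MIn (RP K P) A)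
    (hB : MIn (RP K P) B) : MIn (RP K P) (A + B) := fun i j => rp_add (hA i j) (hB i j)

theorem min_neg {n : ℕ} {A : Matrix (Fin n) (Fin n) K} (hA : MIn (RP K P) A) :
    MIn (RP K P) (-A) := fun i j => rp_neg (hA i j)

theorem min_tr {n : ℕ} {A : Matrix (Fin n) (Fin n) K} (hA : MIn (RP K P) A) :
    MIn (RP K P) Aᵀ := fun i j => hA j i

/-- A matrix over `R` which is `d³` times a matrix regular at `P` vanishes modulo the cube
of `P`. -/
theorem zero3 (hd : d ∈ P.asIdeal) (hd2 : d ∉ P.asIdeal ^ 2) {n : ℕ}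
    {A B : Matrix (Fin n) (Fin n) R} {z : Matrix (Fin n) (Fin n) K} (hz : MIn (RP K P) z)
    (h : A.map (algebraMap R K) = B.map (algebraMap R K) + algebraMap R K d ^ 3 • z) :
    A.map (Ideal.Quotient.mk (P.asIdeal ^ 3)) = B.map (Ideal.Quotient.mk (P.asIdeal ^ 3)) := by
  have hd0 : algebraMap R K d ≠ 0 := alg_ne fun h => hd2 (by rw [h]; exact zero_mem _)
  ext i j
  rw [Matrix.map_apply, Matrix.map_apply, Ideal.Quotient.eq]
  apply mem3 (K := K) hd hd2
  have h1 := congrFun (congrFun h i) j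
  rw [Matrix.add_apply, Matrix.smul_apply, Matrix.map_apply, Matrix.map_apply, smul_eq_mul] at h1
  have e : algebraMap R K (A i j - B i j) / algebraMap R K d ^ 3 = z i j := by
    rw [map_sub, h1]
    field_simp
    ring
  rw [e]
  exact hz i j

/-- The transformation modulo the cube of `P`. -/
theorem trans3 (hd : d ∈ P.asIdeal) (hd2 : d ∉ P.asIdeal ^ 2) {n : ℕ}
    {b z M' : Matrix (Fin n) (Fin n) K} {b₀ M M₀ : Matrix (Fin n) (Fin n) R}
    (hb : MIn (RP K P) b) (hz : MIn (RP K P) z)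
    (hbz : b = b₀.map (algebraMap R K) + algebraMap R K d ^ 3 • z)
    (hM : bᵀ * M.map (algebraMap R K) * b = M')
    (hM₀ : ∀ i j, (M' i j - algebraMap R K (M₀ i j)) / algebraMap R K d ^ 3 ∈ RP K P) :
    (b₀.map (Ideal.Quotient.mk (P.asIdeal ^ 3)))ᵀ * M.map (Ideal.Quotient.mk (P.asIdeal ^ 3)) *
      b₀.map (Ideal.Quotient.mk (P.asIdeal ^ 3)) = M₀.map (Ideal.Quotient.mk (P.asIdeal ^ 3)) := by
  have hd0 : algebraMap R K d ≠ 0 := alg_ne fun h => hd2 (by rw [h]; exact zero_mem _)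
  obtain ⟨w, hw⟩ : ∃ w : Matrix (Fin n) (Fin n) K, w = Matrix.of fun i j =>
    (M' i j - algebraMap R K (M₀ i j)) / algebraMap R K d ^ 3 := ⟨_, rfl⟩
  have hwI : MIn (RP K P) w := by
    rw [hw]
    exact hM₀
  have hMw : M' = M₀.map (algebraMap R K) + algebraMap R K d ^ 3 • w := by
    rw [hw]
    ext i j
    rw [Matrix.add_apply, Matrix.smul_apply, Matrix.map_apply, Matrix.of_apply, smul_eq_mul]
    field_simp
    ring
  rw [← Matrix.transpose_map, ← Matrix.map_mul, ← Matrix.map_mul]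
  refine zero3 (K := K) (z := w - zᵀ * M.map (algebraMap R K) * b -
    (b₀.map (algebraMap R K))ᵀ * M.map (algebraMap R K) * z) hd hd2 ?_ ?_
  · rw [sub_eq_add_neg, sub_eq_add_neg]
    refine min_add (min_add hwI (min_neg ?_)) (min_neg ?_)
    · exact rp_min_mul (rp_min_mul (min_tr hz) (rp_map M)) hb
    · exact rp_min_mul (rp_min_mul (min_tr (rp_map b₀)) (rp_map M)) hz
  · rw [Matrix.map_mul, Matrix.map_mul, Matrix.transpose_map]
    have e1 : (M₀.map (algebraMap R K)) = M' - algebraMap R K d ^ 3 • w := by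
      rw [hMw]
      abel
    have e2 : b₀.map (algebraMap R K) = b - algebraMap R K d ^ 3 • z := by
      rw [hbz]
      abel
    rw [e1, ← hM, e2]
    rw [Matrix.transpose_sub, Matrix.transpose_smul]
    simp only [Matrix.sub_mul, Matrix.mul_sub, Matrix.smul_mul, Matrix.mul_smul, smul_sub]
    abel

end Loc

theorem gr_symm {A : Type} [CommRing A] (k n : ℕ) (f h : A[X]) : (gr k n f h)ᵀ = gr k n f h := by
  ext i j
  unfold gr
  rw [Matrix.transpose_apply, Matrix.of_apply, Matrix.of_apply, add_comm (j : ℕ) (i : ℕ)]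

end LRSK3

open LRSK3

/-- **LRSK.** -/
theorem lrsk : LRSKStmt := by
  intro R _ _ K _ _ _ P d c γ f g α κ G₀ S₀ hd hd2 hκ hW hG₀t hS₀t hWG hWS hB E G S hE hGd hG hS
  have hd0 : algebraMap R K d ≠ 0 := alg_ne fun h => hd2 (by rw [h]; exact zero_mem _)
  have hinj : ∀ A B : Matrix (Fin (2 * g + 1)) (Fin (2 * g + 1)) R,
      A.map (algebraMap R K) = B.map (algebraMap R K) → A = B := by
    intro A B h
    ext i j
    exact IsFractionRing.injective R K (congrFun (congrFun h i) j)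
  have hGt : Gᵀ = G := by
    apply hinj
    rw [Matrix.transpose_map, ← hG]
    simp only [Matrix.transpose_mul, Matrix.transpose_transpose, gr_symm, Matrix.mul_assoc]
  have hSt : Sᵀ = S := by
    apply hinj
    rw [Matrix.transpose_map, ← hS]
    simp only [Matrix.transpose_smul, Matrix.transpose_mul, Matrix.transpose_transpose, gr_symm,
      Matrix.mul_assoc]
  obtain ⟨a, ha⟩ : ∃ a, a = κ⁻¹ * E := ⟨_, rfl⟩
  rw [← ha] at hE
  have hEa : E = κ * a := by
    rw [ha, Matrix.mul_nonsing_inv_cancel_left _ _ (isUnit_iff_ne_zero.2 hκ)]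
  obtain ⟨W, hWd⟩ : ∃ W, W = κᵀ * gr 0 (2 * g + 1) (fk K f) α * κ := ⟨_, rfl⟩
  obtain ⟨V, hVd⟩ : ∃ V, V = κᵀ * gr 1 (2 * g + 1) (fk K f) α * κ := ⟨_, rfl⟩
  rw [← hWd] at hW hWG
  rw [← hVd] at hWS
  have hGa : aᵀ * W * a = G.map (algebraMap R K) := by
    rw [← hG, hEa, hWd, Matrix.transpose_mul]
    simp only [Matrix.mul_assoc]
  have hSa : aᵀ * (algebraMap R K d • V) * a = S.map (algebraMap R K) := by
    rw [← hS, hEa, hVd, Matrix.transpose_mul]
    simp only [Matrix.mul_assoc, Matrix.mul_smul, Matrix.smul_mul]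
  have hδ : algebraMap R K G.det ≠ 0 := alg_ne fun h => hGd (by rw [h]; exact zero_mem _)
  obtain ⟨b, hb⟩ : ∃ b, b = (algebraMap R K G.det)⁻¹ •
    ((G.adjugate).map (algebraMap R K) * (aᵀ * W)) := ⟨_, rfl⟩
  have hba : b * a = 1 := by
    rw [hb, Matrix.smul_mul, Matrix.mul_assoc, hGa, ← Matrix.map_mul, Matrix.adjugate_mul]
    ext i j
    rw [Matrix.smul_apply, Matrix.map_apply, Matrix.smul_apply, smul_eq_mul, smul_eq_mul,
      map_mul, ← mul_assoc, inv_mul_cancel₀ hδ, one_mul, Matrix.one_apply, Matrix.one_apply]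
    split_ifs
    · rw [map_one]
    · rw [map_zero]
  have hab : a * b = 1 := mul_eq_one_comm.1 hba
  have hbI : MIn (RP K P) b := by
    intro i j
    rw [hb, Matrix.smul_apply, smul_eq_mul]
    exact rp_mul (rp_inv hGd) (rp_min_mul (rp_map _) (rp_min_mul (min_tr hE) hW.1) i j)
  have htr : ∀ X Y : Matrix (Fin (2 * g + 1)) (Fin (2 * g + 1)) K, aᵀ * X * a = Y →
      bᵀ * Y * b = X := by
    intro X Y h
    rw [← h]
    have h1 : bᵀ * (aᵀ * X * a) * b = (a * b)ᵀ * X * (a * b) := by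
      rw [Matrix.transpose_mul]
      simp only [Matrix.mul_assoc]
    rw [h1, hab, Matrix.transpose_one, Matrix.one_mul, Matrix.mul_one]
  obtain ⟨b₀, z, hz, hbz⟩ := nearM hd hd2 hbI
  obtain ⟨a₀, y, hy, hay⟩ := nearM hd hd2 hE
  have e1 := trans3 hd hd2 hbI hz hbz (htr _ _ hGa) hWG
  have e2 := trans3 (M₀ := S₀) hd hd2 hbI hz hbz (htr _ _ hSa) (fun i j => by
    rw [Matrix.smul_apply, smul_eq_mul]
    exact hWS i j)
  have e3 : (b₀ * a₀).map (Ideal.Quotient.mk (P.asIdeal ^ 3)) =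
      (1 : Matrix (Fin (2 * g + 1)) (Fin (2 * g + 1)) R).map
        (Ideal.Quotient.mk (P.asIdeal ^ 3)) := by
    refine zero3 (K := K) (z := -(z * a) - b₀.map (algebraMap R K) * y) hd hd2 ?_ ?_
    · rw [sub_eq_add_neg]
      exact min_add (min_neg (rp_min_mul hz hE)) (min_neg (rp_min_mul (rp_map b₀) hy))
    · have e4 : (1 : Matrix (Fin (2 * g + 1)) (Fin (2 * g + 1)) R).map (algebraMap R K) =
          b * a := by
        rw [hba, Matrix.map_one _ (map_zero _) (map_one _)]
      have e5 : a₀.map (algebraMap R K) = a - algebraMap R K d ^ 3 • y := by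
        rw [hay]
        abel
      rw [Matrix.map_mul, e4, e5, Matrix.mul_sub]
      have e6 : b * a = b₀.map (algebraMap R K) * a + (algebraMap R K d ^ 3 • z) * a := by
        rw [← Matrix.add_mul, ← hbz]
      rw [e6, smul_sub, smul_neg, Matrix.mul_smul, Matrix.smul_mul]
      abel
  refine ⟨?_, ?_, b₀.map (Ideal.Quotient.mk (P.asIdeal ^ 3)), ?_, ?_⟩
  · rw [← Matrix.transpose_map, hGt]
  · rw [← Matrix.transpose_map, hSt]
  · rw [Matrix.map_mul, Matrix.map_one _ (map_zero _) (map_one _)] at e3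
    have e4 := congrArg Matrix.det e3
    rw [Matrix.det_mul, Matrix.det_one] at e4
    exact IsUnit.of_mul_eq_one _ e4
  · rw [e1, e2]
    exact hB

end Pool.PRK
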